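import Mathlib.Algebra.RingQuot
import Mathlib.Algebra.FreeAlgebra
import Mathlib.Data.Fintype.Prod
import Mathlib.Tactic

/-!
# MP_40e4cd_al : Leavitt path algebras of Kronecker squares do not determine those of the quivers

We construct finite quivers `Q`, `Q'` such that for every field `K` the Leavitt path algebras of
the Kronecker squares are isomorphic, while `L_K(Q)` and `L_K(Q')` are not.

`Q` has four isolated vertices, a vertex `v` with two loops, and three further vertices each of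
them emitting exactly one arrow, to `v`.  `Q'` has six isolated vertices and a vertex with two
loops.
-/

namespace Pool.Agent.Results.MP_40e4cd_al.KroneckerSquares

open Finset

/-- Finite quivers (vertex set `V`, arrow set `E`, source `s`, range `r`). -/
structure Quiv where
  /-- vertices -/
  V : Type
  /-- arrows -/
  E : Type
  [fV : Fintype V]
  [dV : DecidableEq V]
  [fE : Fintype E]
  [dE : DecidableEq E]
  /-- source -/
  s : E → V
  /-- range -/
  r : E → V

attribute [instance] Quiv.fV Quiv.dV Quiv.fE Quiv.dE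

/-- The Kronecker square. -/
def Quiv.kron (Q : Quiv) : Quiv where
  V := Q.V × Q.V
  E := Q.E × Q.E
  s := fun e => (Q.s e.1, Q.s e.2)
  r := fun e => (Q.r e.1, Q.r e.2)

/-- The generators of the Leavitt path algebra: vertices, arrows, ghost arrows. -/
inductive Gen (Q : Quiv)
  | vert (u : Q.V) : Gen Q
  | arr (a : Q.E) : Gen Q
  | ghost (a : Q.E) : Gen Q

open Gen FreeAlgebra

/-- The defining relations of the Leavitt path algebra (`unit` says that the sum of the vertices,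
which is the identity of the algebra of a finite quiver, is `1`). -/
inductive Rel (K : Type) [Field K] (Q : Quiv) :
    FreeAlgebra K (Gen Q) → FreeAlgebra K (Gen Q) → Prop
  | vv (u w : Q.V) : Rel K Q (ι K (vert u) * ι K (vert w)) (if u = w then ι K (vert u) else 0)
  | sa (a : Q.E) : Rel K Q (ι K (vert (Q.s a)) * ι K (arr a)) (ι K (arr a))
  | ar (a : Q.E) : Rel K Q (ι K (arr a) * ι K (vert (Q.r a))) (ι K (arr a))
  | rg (a : Q.E) : Rel K Q (ι K (vert (Q.r a)) * ι K (ghost a)) (ι K (ghost a))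
  | gs (a : Q.E) : Rel K Q (ι K (ghost a) * ι K (vert (Q.s a))) (ι K (ghost a))
  | ck1 (a b : Q.E) : Rel K Q (ι K (ghost a) * ι K (arr b))
      (if a = b then ι K (vert (Q.r a)) else 0)
  | ck2 (u : Q.V) (h : ∃ a, Q.s a = u) :
      Rel K Q (ι K (vert u)) (∑ a ∈ univ.filter (fun a => Q.s a = u), ι K (arr a) * ι K (ghost a))
  | unit : Rel K Q (∑ u : Q.V, ι K (vert u)) 1

/-- The Leavitt path algebra `L_K(Q)` of a finite quiver. -/
abbrev LPA (K : Type) [Field K] (Q : Quiv) : Type := RingQuot (Rel K Q)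

/-! ### Universal property -/

/-- Families satisfying the defining relations. -/
structure Fam (Q : Quiv) (B : Type) [Ring B] where
  p : Q.V → B
  x : Q.E → B
  y : Q.E → B
  pp : ∀ u w, p u * p w = if u = w then p u else 0
  px : ∀ a, p (Q.s a) * x a = x a
  xp : ∀ a, x a * p (Q.r a) = x a
  py : ∀ a, p (Q.r a) * y a = y a
  yp : ∀ a, y a * p (Q.s a) = y a
  yx : ∀ a b, y a * x b = if a = b then p (Q.r a) else 0
  ck2 : ∀ u, (∃ a, Q.s a = u) → p u = ∑ a ∈ univ.filter (fun a => Q.s a = u), x a * y a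
  one : ∑ u, p u = 1

section Universal

variable (K : Type) [Field K] (Q : Quiv)

/-- the canonical family -/
noncomputable def fam : Fam Q (LPA K Q) where
  p u := RingQuot.mkAlgHom K (Rel K Q) (ι K (vert u))
  x a := RingQuot.mkAlgHom K (Rel K Q) (ι K (arr a))
  y a := RingQuot.mkAlgHom K (Rel K Q) (ι K (ghost a))
  pp u w := by
    rw [← map_mul, RingQuot.mkAlgHom_rel K (Rel.vv u w)]
    split_ifs <;> simp
  px a := by rw [← map_mul, RingQuot.mkAlgHom_rel K (Rel.sa a)]
  xp a := by rw [← map_mul, RingQuot.mkAlgHom_rel K (Rel.ar a)]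
  py a := by rw [← map_mul, RingQuot.mkAlgHom_rel K (Rel.rg a)]
  yp a := by rw [← map_mul, RingQuot.mkAlgHom_rel K (Rel.gs a)]
  yx a b := by
    rw [← map_mul, RingQuot.mkAlgHom_rel K (Rel.ck1 a b)]
    split_ifs <;> simp
  ck2 u h := by
    rw [RingQuot.mkAlgHom_rel K (Rel.ck2 u h), map_sum]
    simp only [map_mul]
  one := by
    rw [← map_sum, RingQuot.mkAlgHom_rel K (Rel.unit), map_one]

variable {K Q}

/-- the map on generators -/
def Fam.gen {B : Type} [Ring B] (F : Fam Q B) : Gen Q → B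
  | vert u => F.p u
  | arr a => F.x a
  | ghost a => F.y a

/-- the homomorphism given by a family -/
noncomputable def Fam.lift {B : Type} [Ring B] [Algebra K B] (F : Fam Q B) : LPA K Q →ₐ[K] B :=
  RingQuot.liftAlgHom K ⟨FreeAlgebra.lift K F.gen, by
    intro z z' h
    cases h with
    | vv u w => 
      simp only [map_mul, FreeAlgebra.lift_ι_apply, Fam.gen, F.pp]
      split_ifs <;> simp [Fam.gen]
    | sa a => simp [Fam.gen, F.px]
    | ar a => simp [Fam.gen, F.xp]
    | rg a => simp [Fam.gen, F.py]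
    | gs a => simp [Fam.gen, F.yp]
    | ck1 a b =>
      simp only [map_mul, FreeAlgebra.lift_ι_apply, Fam.gen, F.yx]
      split_ifs <;> simp [Fam.gen]
    | ck2 u h =>
      simp only [map_sum, map_mul, FreeAlgebra.lift_ι_apply, Fam.gen]
      exact F.ck2 u h
    | unit =>
      simp only [map_sum, FreeAlgebra.lift_ι_apply, Fam.gen, map_one]
      exact F.one⟩

lemma lift_p {B : Type} [Ring B] [Algebra K B] (F : Fam Q B) (u : Q.V) :
    F.lift (K := K) ((fam K Q).p u) = F.p u := by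
  simp only [Fam.lift, fam, RingQuot.liftAlgHom_mkAlgHom_apply, FreeAlgebra.lift_ι_apply, Fam.gen]

lemma lift_x {B : Type} [Ring B] [Algebra K B] (F : Fam Q B) (a : Q.E) :
    F.lift (K := K) ((fam K Q).x a) = F.x a := by
  simp only [Fam.lift, fam, RingQuot.liftAlgHom_mkAlgHom_apply, FreeAlgebra.lift_ι_apply, Fam.gen]

lemma lift_y {B : Type} [Ring B] [Algebra K B] (F : Fam Q B) (a : Q.E) :
    F.lift (K := K) ((fam K Q).y a) = F.y a := by
  simp only [Fam.lift, fam, RingQuot.liftAlgHom_mkAlgHom_apply, FreeAlgebra.lift_ι_apply, Fam.gen]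

lemma hom_ext {B : Type} [Ring B] [Algebra K B] (f g : LPA K Q →ₐ[K] B)
    (hp : ∀ u, f ((fam K Q).p u) = g ((fam K Q).p u))
    (hx : ∀ a, f ((fam K Q).x a) = g ((fam K Q).x a))
    (hy : ∀ a, f ((fam K Q).y a) = g ((fam K Q).y a)) : f = g := by
  apply RingQuot.ringQuot_ext'
  apply FreeAlgebra.hom_ext
  funext z
  cases z with
  | vert u => exact hp u
  | arr a => exact hx a
  | ghost a => exact hy a

end Universal

/-! ### Four isometries and a comb -/

/-- A Leavitt family of type `(1,4)` with unit `v` inside the ring `B`. -/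
structure L4 (B : Type) [Ring B] where
  v : B
  x : Fin 4 → B
  y : Fin 4 → B
  vv : v * v = v
  vx : ∀ i, v * x i = x i
  xv : ∀ i, x i * v = x i
  vy : ∀ i, v * y i = y i
  yv : ∀ i, y i * v = y i
  yx : ∀ i j, y i * x j = if i = j then v else 0
  sum : ∑ i, x i * y i = v

namespace L4

variable {B : Type} [Ring B] (L : L4 B)

/-- `x₀^k x_i` -/
def D (q : ℕ × Fin 4) : B := L.x 0 ^ q.1 * L.x q.2
/-- `y_i y₀^k` -/
def S (q : ℕ × Fin 4) : B := L.y q.2 * L.y 0 ^ q.1

/-- The leaves of the comb: `(k,i)` with `k < 7` and `i ≠ 0`, or `k = 7`. -/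
def leaves : Finset (ℕ × Fin 4) := (range 7 ×ˢ {1, 2, 3}) ∪ ({7} ×ˢ univ)

lemma yx0 (n : ℕ) : L.y 0 ^ (n + 1) * L.x 0 ^ (n + 1) = L.v := by
  induction n with
  | zero => simp [L.yx]
  | succ n ih =>
    calc L.y 0 ^ (n + 1 + 1) * L.x 0 ^ (n + 1 + 1)
        = L.y 0 * (L.y 0 ^ (n + 1) * L.x 0 ^ (n + 1)) * L.x 0 := by
          rw [pow_succ' (L.y 0), pow_succ (L.x 0)]; noncomm_ring
      _ = L.v := by rw [ih, L.yv, L.yx]; simp

lemma pow_mid (k : ℕ) (z : B) (hz : L.v * z = z) : L.y 0 ^ k * (L.x 0 ^ k * z) = z := by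
  cases k with
  | zero => simp
  | succ n => rw [← mul_assoc, L.yx0, hz]

lemma SD (q q' : ℕ × Fin 4) (hq : q ∈ leaves) (hq' : q' ∈ leaves) :
    L.S q * L.D q' = if q = q' then L.v else 0 := by
  obtain ⟨k, i⟩ := q
  obtain ⟨l, j⟩ := q'
  simp only [leaves, mem_union, mem_product, mem_range, mem_insert, mem_singleton, mem_univ,
    and_true] at hq hq'
  simp only [S, D]
  rcases lt_trichotomy k l with h | h | h
  · have hne : ((k, i) : ℕ × Fin 4) ≠ (l, j) := by
      intro h'; have := congrArg Prod.fst h'; simp at this; omega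
    have hi : i ≠ 0 := by
      rcases hq with ⟨_, hi⟩ | hq
      · rcases hi with rfl | rfl | rfl <;> decide
      · omega
    rw [if_neg hne]
    obtain ⟨d, rfl⟩ : ∃ d, l = k + (d + 1) := ⟨l - k - 1, by omega⟩
    have e1 : L.v * (L.x 0 ^ (d + 1) * L.x j) = L.x 0 ^ (d + 1) * L.x j := by
      rw [pow_succ', ← mul_assoc, ← mul_assoc, L.vx]
    calc L.y i * L.y 0 ^ k * (L.x 0 ^ (k + (d + 1)) * L.x j)
        = L.y i * (L.y 0 ^ k * (L.x 0 ^ k * (L.x 0 ^ (d + 1) * L.x j))) := by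
          rw [pow_add]; noncomm_ring
      _ = L.y i * (L.x 0 ^ (d + 1) * L.x j) := by rw [L.pow_mid k _ e1]
      _ = (L.y i * L.x 0) * (L.x 0 ^ d * L.x j) := by rw [pow_succ']; noncomm_ring
      _ = 0 := by rw [L.yx, if_neg hi, zero_mul]
  · subst h
    calc L.y i * L.y 0 ^ k * (L.x 0 ^ k * L.x j)
        = L.y i * (L.y 0 ^ k * (L.x 0 ^ k * L.x j)) := by noncomm_ring
      _ = L.y i * L.x j := by rw [L.pow_mid k _ (L.vx j)]
      _ = _ := by
        rw [L.yx]
        by_cases hij : i = j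
        · subst hij; simp
        · rw [if_neg hij, if_neg (by intro h'; exact hij (congrArg Prod.snd h'))]
  · have hne : ((k, i) : ℕ × Fin 4) ≠ (l, j) := by
      intro h'; have := congrArg Prod.fst h'; simp at this; omega
    have hj : j ≠ 0 := by
      rcases hq' with ⟨_, hj⟩ | hq'
      · rcases hj with rfl | rfl | rfl <;> decide
      · have : k ≤ 7 := by
          rcases hq with ⟨h1, _⟩ | h1 <;> omega
        omega
    rw [if_neg hne]
    obtain ⟨d, rfl⟩ : ∃ d, k = (d + 1) + l := ⟨k - l - 1, by omega⟩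
    calc L.y i * L.y 0 ^ ((d + 1) + l) * (L.x 0 ^ l * L.x j)
        = L.y i * L.y 0 ^ (d + 1) * (L.y 0 ^ l * (L.x 0 ^ l * L.x j)) := by
          rw [pow_add]; noncomm_ring
      _ = L.y i * L.y 0 ^ (d + 1) * L.x j := by rw [L.pow_mid l _ (L.vx j)]
      _ = L.y i * L.y 0 ^ d * (L.y 0 * L.x j) := by rw [pow_succ]; noncomm_ring
      _ = 0 := by rw [L.yx, if_neg (Ne.symm hj), mul_zero]

lemma tele (n : ℕ) : (∑ k ∈ range n, ∑ i ∈ ({1, 2, 3} : Finset (Fin 4)), L.D (k, i) * L.S (k, i)) +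
    L.x 0 ^ n * L.v * L.y 0 ^ n = L.v := by
  induction n with
  | zero => simp
  | succ n ih =>
    rw [sum_range_succ]
    have h3 : ∑ i ∈ ({1, 2, 3} : Finset (Fin 4)), L.D (n, i) * L.S (n, i) =
        L.x 0 ^ n * (L.v - L.x 0 * L.y 0) * L.y 0 ^ n := by
      have hs : L.v - L.x 0 * L.y 0 = L.x 1 * L.y 1 + L.x 2 * L.y 2 + L.x 3 * L.y 3 := by
        rw [← L.sum, Fin.sum_univ_four]; abel
      rw [hs, sum_insert (by decide), sum_insert (by decide), sum_singleton]
      simp only [D, S]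
      noncomm_ring
    rw [h3]
    have h4 : L.x 0 ^ (n + 1) * L.v * L.y 0 ^ (n + 1) = L.x 0 ^ n * (L.x 0 * L.y 0) * L.y 0 ^ n := by
      rw [pow_succ (L.x 0), pow_succ' (L.y 0)]
      calc L.x 0 ^ n * L.x 0 * L.v * (L.y 0 * L.y 0 ^ n)
          = L.x 0 ^ n * (L.x 0 * L.v) * (L.y 0 * L.y 0 ^ n) := by noncomm_ring
        _ = _ := by rw [L.xv]; noncomm_ring
    rw [h4]
    calc _ = (∑ k ∈ range n, ∑ i ∈ ({1, 2, 3} : Finset (Fin 4)), L.D (k, i) * L.S (k, i)) +
        L.x 0 ^ n * L.v * L.y 0 ^ n := by noncomm_ring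
      _ = L.v := ih

/-- `x₀^7` and `y₀^7` -/
def C : B := L.x 0 ^ 7
def CS : B := L.y 0 ^ 7

lemma CSC : L.CS * L.C = L.v := L.yx0 6

lemma sum_top : ∑ i, L.D (7, i) * L.S (7, i) = L.C * L.CS := by
  have : ∀ i, L.D (7, i) * L.S (7, i) = L.x 0 ^ 7 * (L.x i * L.y i) * L.y 0 ^ 7 := by
    intro i; simp only [D, S]; noncomm_ring
  simp only [this]
  rw [← Finset.sum_mul, ← Finset.mul_sum, L.sum]
  have h : L.x 0 ^ 7 * L.v = L.x 0 ^ 7 := by
    rw [pow_succ, mul_assoc, L.xv]
  rw [h]; rfl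

lemma sum_leaves : ∑ q ∈ leaves, L.D q * L.S q = L.v := by
  have hd : Disjoint (range 7 ×ˢ ({1, 2, 3} : Finset (Fin 4))) ({7} ×ˢ univ) := by
    rw [Finset.disjoint_left]
    rintro ⟨k, i⟩ h1 h2
    simp only [mem_product, mem_range, mem_singleton] at h1 h2
    omega
  rw [leaves, sum_union hd, sum_product, sum_product, sum_singleton, L.sum_top]
  have h := L.tele 7
  have h7 : L.x 0 ^ 7 * L.v = L.x 0 ^ 7 := by
    rw [pow_succ, mul_assoc, L.xv]
  rw [h7] at h
  exact h

lemma vD (q : ℕ × Fin 4) : L.v * L.D q = L.D q := by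
  obtain ⟨k, i⟩ := q
  cases k with
  | zero => simp [D, L.vx]
  | succ n => simp only [D]; rw [pow_succ', ← mul_assoc, ← mul_assoc, L.vx]

lemma Sv (q : ℕ × Fin 4) : L.S q * L.v = L.S q := by
  obtain ⟨k, i⟩ := q
  cases k with
  | zero => simp [S, L.yv]
  | succ n => simp only [S]; rw [pow_succ, mul_assoc, mul_assoc, L.yv]

lemma Dv (q : ℕ × Fin 4) : L.D q * L.v = L.D q := by
  simp only [D]; rw [mul_assoc, L.xv]

lemma vS (q : ℕ × Fin 4) : L.v * L.S q = L.S q := by
  simp only [S]; rw [← mul_assoc, L.vy]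

lemma vC : L.v * L.C = L.C := by
  simp only [C]; rw [pow_succ', ← mul_assoc, L.vx]

lemma Cv : L.C * L.v = L.C := by
  simp only [C]; rw [pow_succ, mul_assoc, L.xv]

lemma vCS : L.v * L.CS = L.CS := by
  simp only [CS]; rw [pow_succ', ← mul_assoc, L.vy]

lemma CSv : L.CS * L.v = L.CS := by
  simp only [CS]; rw [pow_succ, mul_assoc, L.yv]

end L4


/-! ### Star quivers -/

/-- A quiver all of whose arrows end in `v` and with exactly four loops `lam j` at `v`. -/
structure Star (Q : Quiv) where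
  v : Q.V
  hr : ∀ a, Q.r a = v
  lam : Fin 4 → Q.E
  lam_inj : Function.Injective lam
  lam_s : ∀ j, Q.s (lam j) = v
  lam_all : ∀ a, Q.s a = v → ∃ j, lam j = a

/-- The four loops give a Leavitt family. -/
def Star.l4 {Q : Quiv} (T : Star Q) {B : Type} [Ring B] (F : Fam Q B) : L4 B where
  v := F.p T.v
  x j := F.x (T.lam j)
  y j := F.y (T.lam j)
  vv := by rw [F.pp, if_pos rfl]
  vx i := by have := F.px (T.lam i); rwa [T.lam_s] at this
  xv i := by have := F.xp (T.lam i); rwa [T.hr] at this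
  vy i := by have := F.py (T.lam i); rwa [T.hr] at this
  yv i := by have := F.yp (T.lam i); rwa [T.lam_s] at this
  yx i j := by
    rw [F.yx, T.hr]
    by_cases h : i = j
    · subst h; simp
    · rw [if_neg h, if_neg (fun h' => h (T.lam_inj h'))]
  sum := by
    have h := F.ck2 T.v ⟨T.lam 0, T.lam_s 0⟩
    rw [h]
    have : univ.filter (fun a => Q.s a = T.v) = univ.image T.lam := by
      ext a
      simp only [mem_filter, mem_univ, true_and, mem_image]
      exact ⟨fun h => T.lam_all a h, fun ⟨j, hj⟩ => hj ▸ T.lam_s j⟩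
    rw [this, sum_image (fun i _ j _ h => T.lam_inj h)]

/-- Matching data between a star quiver `Q` and a star quiver `Q'` with no further arrows. -/
structure Match (Q Q' : Quiv) where
  T : Star Q
  T' : Star Q'
  all' : ∀ a, ∃ j, T'.lam j = a
  pos : Q.E → ℕ × Fin 4
  pos_inj : Function.Injective pos
  pos_image : univ.image pos = L4.leaves
  pos_lam : ∀ j, pos (T.lam j) = (7, j)
  f : Q.V → Q'.V
  g : Q'.V → Q.V
  f_ne : ∀ u, (¬ ∃ a, Q.s a = u) → f u ≠ T'.v
  gf : ∀ u, (¬ ∃ a, Q.s a = u) → g (f u) = u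
  g_iso : ∀ u', u' ≠ T'.v → ¬ ∃ a, Q.s a = g u'
  fg : ∀ u', u' ≠ T'.v → f (g u') = u'

namespace Match

variable {Q Q' : Quiv} (M : Match Q Q')

lemma s' (a : Q'.E) : Q'.s a = M.T'.v := by
  obtain ⟨j, rfl⟩ := M.all' a; exact M.T'.lam_s j

/-- inverse of `lam'` -/
noncomputable def nu (a : Q'.E) : Fin 4 := (M.all' a).choose
lemma lam_nu (a : Q'.E) : M.T'.lam (M.nu a) = a := (M.all' a).choose_spec
lemma nu_lam (j : Fin 4) : M.nu (M.T'.lam j) = j := M.T'.lam_inj (M.lam_nu _)

lemma pos_mem (a : Q.E) : M.pos a ∈ L4.leaves := by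
  rw [← M.pos_image]; exact mem_image_of_mem _ (mem_univ _)

lemma sum_pos {B : Type} [Ring B] (L : L4 B) : ∑ a, L.D (M.pos a) * L.S (M.pos a) = L.v := by
  rw [← L.sum_leaves, ← M.pos_image, sum_image (fun i _ j _ h => M.pos_inj h)]

lemma SD {B : Type} [Ring B] (L : L4 B) (a b : Q.E) :
    L.S (M.pos a) * L.D (M.pos b) = if a = b then L.v else 0 := by
  rw [L.SD _ _ (M.pos_mem a) (M.pos_mem b)]
  by_cases h : a = b
  · subst h; simp
  · rw [if_neg h, if_neg (fun h' => h (M.pos_inj h'))]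

/-! #### The family for `Φ` -/

section Phi

variable {B : Type} [Ring B] (F : Fam Q' B)

/-- local notation for the four isometries -/
abbrev l' : L4 B := M.T'.l4 F

/-- the part of `p u` from arrows -/
def A (u : Q.V) : B :=
  ∑ a ∈ univ.filter (fun a => Q.s a = u), (M.l' F).D (M.pos a) * (M.l' F).S (M.pos a)

/-- image of the vertex `u` -/
def P (u : Q.V) : B := if ∃ a, Q.s a = u then M.A F u else F.p (M.f u)

lemma A_mul_A (u w : Q.V) : M.A F u * M.A F w = if u = w then M.A F u else 0 := by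
  simp only [A, sum_mul_sum]
  have h : ∀ a b : Q.E, (M.l' F).D (M.pos a) * (M.l' F).S (M.pos a) *
      ((M.l' F).D (M.pos b) * (M.l' F).S (M.pos b)) =
      if a = b then (M.l' F).D (M.pos a) * (M.l' F).S (M.pos a) else 0 := by
    intro a b
    calc _ = (M.l' F).D (M.pos a) * ((M.l' F).S (M.pos a) * (M.l' F).D (M.pos b)) *
          (M.l' F).S (M.pos b) := by noncomm_ring
      _ = _ := by
        rw [M.SD]
        split_ifs with h
        · subst h; rw [(M.l' F).Dv]
        · simp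
  simp only [h]
  by_cases huw : u = w
  · subst huw
    rw [if_pos rfl]
    refine sum_congr rfl fun a ha => ?_
    rw [sum_ite_eq, if_pos ha]
  · rw [if_neg huw]
    refine sum_eq_zero fun a ha => sum_eq_zero fun b hb => ?_
    rw [if_neg]
    rintro rfl
    simp only [mem_filter, mem_univ, true_and] at ha hb
    exact huw (ha.symm.trans hb)

lemma A_mul_p (u : Q.V) (w : Q'.V) (hw : w ≠ M.T'.v) : M.A F u * F.p w = 0 := by
  simp only [A, sum_mul]
  refine sum_eq_zero fun a _ => ?_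
  have : (M.l' F).v * F.p w = 0 := by
    change F.p M.T'.v * F.p w = 0
    rw [F.pp, if_neg (Ne.symm hw)]
  rw [← (M.l' F).Sv, mul_assoc, mul_assoc, this]
  simp

lemma p_mul_A (u : Q.V) (w : Q'.V) (hw : w ≠ M.T'.v) : F.p w * M.A F u = 0 := by
  simp only [A, mul_sum]
  refine sum_eq_zero fun a _ => ?_
  have : F.p w * (M.l' F).v = 0 := by
    change F.p w * F.p M.T'.v = 0
    rw [F.pp, if_neg hw]
  rw [← (M.l' F).vD, ← mul_assoc, ← mul_assoc, this]
  simp

lemma filter_loops {Q : Quiv} (T : Star Q) :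
    univ.filter (fun a => Q.s a = T.v) = univ.image T.lam := by
  ext a
  simp only [mem_filter, mem_univ, true_and, mem_image]
  exact ⟨fun h => T.lam_all a h, fun ⟨j, hj⟩ => hj ▸ T.lam_s j⟩

lemma A_loops : M.A F M.T.v = (M.l' F).C * (M.l' F).CS := by
  rw [A, filter_loops, sum_image (fun i _ j _ h => M.T.lam_inj h), ← (M.l' F).sum_top]
  simp only [M.pos_lam]

lemma P_loops : M.P F M.T.v = (M.l' F).C * (M.l' F).CS := by
  rw [P, if_pos ⟨M.T.lam 0, M.T.lam_s 0⟩, M.A_loops F]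

lemma sum_A : ∑ u, M.A F u = (M.l' F).v := by
  simp only [A]
  rw [Finset.sum_fiberwise (s := univ) (g := Q.s)
    (f := fun a => (M.l' F).D (M.pos a) * (M.l' F).S (M.pos a))]
  exact M.sum_pos _

lemma A_iso (u : Q.V) (hu : ¬ ∃ a, Q.s a = u) : M.A F u = 0 := by
  rw [A, Finset.sum_eq_zero]
  intro a ha
  simp only [mem_filter, mem_univ, true_and] at ha
  exact absurd ⟨a, ha⟩ hu

/-- summation over isolated vertices on both sides -/
lemma sum_iso {B : Type} [AddCommMonoid B] (φ : Q'.V → B) :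
    ∑ u, (if ∃ a, Q.s a = u then 0 else φ (M.f u)) =
      ∑ u', (if u' = M.T'.v then 0 else φ u') := by
  have h1 : ∑ u, (if ∃ a, Q.s a = u then 0 else φ (M.f u)) =
      ∑ u ∈ univ.filter (fun u => ¬ ∃ a, Q.s a = u), φ (M.f u) := by
    rw [sum_filter]
    refine sum_congr rfl fun u _ => ?_
    by_cases h : ∃ a, Q.s a = u <;> simp [h]
  have h2 : ∑ u', (if u' = M.T'.v then 0 else φ u') =
      ∑ u' ∈ univ.filter (fun u' => ¬ u' = M.T'.v), φ u' := by
    rw [sum_filter]
    refine sum_congr rfl fun u _ => ?_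
    by_cases h : u = M.T'.v <;> simp [h]
  rw [h1, h2]
  refine sum_nbij' M.f M.g ?_ ?_ ?_ ?_ ?_
  · intro u hu
    simp only [mem_filter, mem_univ, true_and] at hu ⊢
    exact M.f_ne u hu
  · intro u hu
    simp only [mem_filter, mem_univ, true_and] at hu ⊢
    exact M.g_iso u hu
  · intro u hu
    simp only [mem_filter, mem_univ, true_and] at hu
    exact M.gf u hu
  · intro u hu
    simp only [mem_filter, mem_univ, true_and] at hu
    exact M.fg u hu
  · intro u _; rfl

/-- The family in the algebra of `Q'` defining `Φ`. -/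
def famPhi : Fam Q B where
  p := M.P F
  x a := (M.l' F).D (M.pos a) * (M.l' F).CS
  y a := (M.l' F).C * (M.l' F).S (M.pos a)
  pp u w := by
    by_cases hu : ∃ a, Q.s a = u
    · by_cases hw : ∃ a, Q.s a = w
      · rw [P, P, if_pos hu, if_pos hw, A_mul_A]
      · rw [P, P, if_pos hu, if_neg hw, A_mul_p _ _ _ _ (M.f_ne w hw), if_neg]
        rintro rfl; exact hw hu
    · by_cases hw : ∃ a, Q.s a = w
      · rw [P, P, if_neg hu, if_pos hw, p_mul_A _ _ _ _ (M.f_ne u hu), if_neg]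
        rintro rfl; exact hu hw
      · rw [P, P, if_neg hu, if_neg hw, F.pp]
        by_cases h : u = w
        · subst h; simp
        · rw [if_neg h, if_neg]
          intro h'
          apply h
          rw [← M.gf u hu, ← M.gf w hw, h']
  px a := by
    rw [P, if_pos ⟨a, rfl⟩, A, ← mul_assoc]
    congr 1
    rw [sum_mul]
    have h : ∀ b : Q.E, (M.l' F).D (M.pos b) * (M.l' F).S (M.pos b) * (M.l' F).D (M.pos a) =
        if b = a then (M.l' F).D (M.pos a) else 0 := by
      intro b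
      rw [mul_assoc, M.SD]
      split_ifs with h
      · subst h; rw [(M.l' F).Dv]
      · simp
    simp only [h]
    rw [sum_ite_eq', if_pos (by simp)]
  xp a := by
    rw [M.T.hr, M.P_loops F]
    calc _ = (M.l' F).D (M.pos a) * ((M.l' F).CS * (M.l' F).C) * (M.l' F).CS := by noncomm_ring
      _ = _ := by rw [(M.l' F).CSC, (M.l' F).Dv]
  py a := by
    rw [M.T.hr, M.P_loops F]
    calc _ = (M.l' F).C * ((M.l' F).CS * (M.l' F).C) * (M.l' F).S (M.pos a) := by noncomm_ring
      _ = _ := by rw [(M.l' F).CSC, (M.l' F).Cv]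
  yp a := by
    rw [P, if_pos ⟨a, rfl⟩, A, mul_assoc]
    congr 1
    rw [mul_sum]
    have h : ∀ b : Q.E, (M.l' F).S (M.pos a) * ((M.l' F).D (M.pos b) * (M.l' F).S (M.pos b)) =
        if a = b then (M.l' F).S (M.pos a) else 0 := by
      intro b
      rw [← mul_assoc, M.SD]
      split_ifs with h
      · subst h; rw [(M.l' F).vS]
      · simp
    simp only [h]
    rw [sum_ite_eq, if_pos (by simp)]
  yx a b := by
    rw [M.T.hr, M.P_loops F]
    calc _ = (M.l' F).C * ((M.l' F).S (M.pos a) * (M.l' F).D (M.pos b)) * (M.l' F).CS := by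
          noncomm_ring
      _ = _ := by
        rw [M.SD]
        split_ifs with h
        · rw [(M.l' F).Cv]
        · simp
  ck2 u hu := by
    rw [P, if_pos hu, A]
    refine sum_congr rfl fun a _ => ?_
    symm
    calc _ = (M.l' F).D (M.pos a) * ((M.l' F).CS * (M.l' F).C) * (M.l' F).S (M.pos a) := by
          noncomm_ring
      _ = _ := by rw [(M.l' F).CSC, (M.l' F).Dv]
  one := by
    have h : ∀ u, M.P F u = M.A F u + (if ∃ a, Q.s a = u then 0 else F.p (M.f u)) := by
      intro u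
      by_cases hu : ∃ a, Q.s a = u
      · rw [P, if_pos hu, if_pos hu, add_zero]
      · rw [P, if_neg hu, if_neg hu, M.A_iso F u hu, zero_add]
    simp only [h, sum_add_distrib]
    rw [M.sum_A F, M.sum_iso F.p]
    have h2 : (M.l' F).v = ∑ u', (if u' = M.T'.v then F.p u' else 0) := by
      rw [sum_ite_eq', if_pos (mem_univ _)]; rfl
    rw [h2, ← sum_add_distrib, ← F.one]
    refine sum_congr rfl fun u _ => ?_
    split_ifs <;> simp

end Phi

/-! #### The family for `Ψ` -/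

section Psi

variable {B : Type} [Ring B] (F : Fam Q B)

/-- the four isometries of `Q` -/
abbrev l : L4 B := M.T.l4 F

/-- `U` -/
def U : B := ∑ a, (M.l F).D (M.pos a) * F.y a
/-- `U*` -/
def US : B := ∑ a, F.x a * (M.l F).S (M.pos a)
/-- the sum of the vertices emitting arrows -/
def w (_M : Match Q Q') (F : Fam Q B) : B := ∑ a, F.x a * F.y a

lemma x_v (a : Q.E) : F.x a * (M.l F).v = F.x a := by
  have := F.xp a; rwa [M.T.hr] at this

lemma v_y (a : Q.E) : (M.l F).v * F.y a = F.y a := by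
  have := F.py a; rwa [M.T.hr] at this

lemma y_x (a b : Q.E) : F.y a * F.x b = if a = b then (M.l F).v else 0 := by
  rw [F.yx, M.T.hr]; rfl

lemma US_D (a : Q.E) : M.US F * (M.l F).D (M.pos a) = F.x a := by
  rw [US, sum_mul]
  have h : ∀ b : Q.E, F.x b * (M.l F).S (M.pos b) * (M.l F).D (M.pos a) =
      if b = a then F.x a else 0 := by
    intro b
    rw [mul_assoc, M.SD]
    split_ifs with h
    · subst h; exact M.x_v F b
    · simp
  simp only [h]
  rw [sum_ite_eq', if_pos (mem_univ _)]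

lemma S_U (a : Q.E) : (M.l F).S (M.pos a) * M.U F = F.y a := by
  rw [U, mul_sum]
  have h : ∀ b : Q.E, (M.l F).S (M.pos a) * ((M.l F).D (M.pos b) * F.y b) =
      if a = b then F.y a else 0 := by
    intro b
    rw [← mul_assoc, M.SD]
    split_ifs with h
    · subst h; exact M.v_y F a
    · simp
  simp only [h]
  rw [sum_ite_eq, if_pos (mem_univ _)]

lemma US_U : M.US F * M.U F = M.w F := by
  rw [U, mul_sum, w]
  refine sum_congr rfl fun a _ => ?_
  rw [← mul_assoc, US_D]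

lemma U_US : M.U F * M.US F = (M.l F).v := by
  rw [U, US, sum_mul_sum, ← M.sum_pos (M.l F)]
  refine sum_congr rfl fun a _ => ?_
  have h : ∀ b : Q.E, (M.l F).D (M.pos a) * F.y a * (F.x b * (M.l F).S (M.pos b)) =
      if a = b then (M.l F).D (M.pos a) * (M.l F).S (M.pos a) else 0 := by
    intro b
    calc _ = (M.l F).D (M.pos a) * (F.y a * F.x b) * (M.l F).S (M.pos b) := by noncomm_ring
      _ = _ := by
        rw [M.y_x F]
        split_ifs with h
        · subst h; rw [(M.l F).Dv]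
        · simp
  simp only [h]
  rw [sum_ite_eq, if_pos (mem_univ _)]

lemma v_U : (M.l F).v * M.U F = M.U F := by
  rw [U, mul_sum]
  refine sum_congr rfl fun a _ => ?_
  rw [← mul_assoc, (M.l F).vD]

lemma US_v : M.US F * (M.l F).v = M.US F := by
  rw [US, sum_mul]
  refine sum_congr rfl fun a _ => ?_
  rw [mul_assoc, (M.l F).Sv]

lemma w_w : M.w F * M.w F = M.w F := by
  rw [← US_U]
  calc _ = M.US F * (M.U F * M.US F) * M.U F := by noncomm_ring
    _ = _ := by rw [U_US, US_v]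

lemma w_US : M.w F * M.US F = M.US F := by
  rw [← US_U, mul_assoc, U_US, US_v]

lemma U_w : M.U F * M.w F = M.U F := by
  rw [← US_U, ← mul_assoc, U_US, v_U]

lemma w_p (u : Q.V) (hu : ¬ ∃ a, Q.s a = u) : M.w F * F.p u = 0 := by
  rw [w, sum_mul]
  refine sum_eq_zero fun a _ => ?_
  rw [← F.yp a, mul_assoc, mul_assoc, F.pp, if_neg (fun h => hu ⟨a, h⟩)]
  simp

lemma p_w (u : Q.V) (hu : ¬ ∃ a, Q.s a = u) : F.p u * M.w F = 0 := by
  rw [w, mul_sum]
  refine sum_eq_zero fun a _ => ?_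
  rw [← F.px a, ← mul_assoc, ← mul_assoc, F.pp, if_neg (fun h => hu ⟨a, h.symm⟩)]
  simp

lemma sum_p_noniso : ∑ u, (if ∃ a, Q.s a = u then F.p u else 0) = M.w F := by
  rw [w, ← Finset.sum_fiberwise (s := univ) (g := Q.s) (f := fun a => F.x a * F.y a)]
  refine sum_congr rfl fun u _ => ?_
  by_cases hu : ∃ a, Q.s a = u
  · rw [if_pos hu, F.ck2 u hu]
  · rw [if_neg hu, Finset.sum_eq_zero]
    intro a ha
    simp only [mem_filter, mem_univ, true_and] at ha
    exact absurd ⟨a, ha⟩ hu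

/-- image of a vertex of `Q'` -/
def P' (u : Q'.V) : B := if u = M.T'.v then M.w F else F.p (M.g u)

lemma P'_v : M.P' F M.T'.v = M.w F := if_pos rfl

/-- The family in the algebra of `Q` defining `Ψ`. -/
noncomputable def famPsi : Fam Q' B where
  p := M.P' F
  x a := M.US F * (M.l F).x (M.nu a) * M.U F
  y a := M.US F * (M.l F).y (M.nu a) * M.U F
  pp u w := by
    by_cases hu : u = M.T'.v
    · by_cases hw : w = M.T'.v
      · subst hu; subst hw; rw [P'_v, w_w, if_pos rfl]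
      · rw [P', P', if_pos hu, if_neg hw, M.w_p F _ (M.g_iso w hw), if_neg]
        rintro rfl; exact hw hu
    · by_cases hw : w = M.T'.v
      · rw [P', P', if_neg hu, if_pos hw, M.p_w F _ (M.g_iso u hu), if_neg]
        rintro rfl; exact hu hw
      · rw [P', P', if_neg hu, if_neg hw, F.pp]
        by_cases h : u = w
        · subst h; simp
        · rw [if_neg h, if_neg]
          intro h'
          apply h
          rw [← M.fg u hu, ← M.fg w hw, h']
  px a := by rw [M.s', P'_v, ← mul_assoc, ← mul_assoc, w_US]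
  xp a := by rw [M.T'.hr, P'_v, mul_assoc, U_w]
  py a := by rw [M.T'.hr, P'_v, ← mul_assoc, ← mul_assoc, w_US]
  yp a := by rw [M.s', P'_v, mul_assoc, U_w]
  yx a b := by
    rw [M.T'.hr, P'_v]
    calc _ = M.US F * ((M.l F).y (M.nu a) * (M.U F * M.US F)) * (M.l F).x (M.nu b) * M.U F := by
          noncomm_ring
      _ = M.US F * ((M.l F).y (M.nu a) * (M.l F).x (M.nu b)) * M.U F := by
          rw [U_US, (M.l F).yv]; noncomm_ring
      _ = _ := by
        rw [(M.l F).yx]
        by_cases h : a = b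
        · subst h; rw [if_pos rfl, if_pos rfl, US_v, US_U]
        · rw [if_neg h, if_neg]
          · simp
          · intro h'; apply h; rw [← M.lam_nu a, ← M.lam_nu b, h']
  ck2 u hu := by
    obtain ⟨a, rfl⟩ := hu
    rw [M.s', P'_v, filter_loops, sum_image (fun i _ j _ h => M.T'.lam_inj h)]
    simp only [M.nu_lam]
    have h : ∀ j, M.US F * (M.l F).x j * M.U F * (M.US F * (M.l F).y j * M.U F) =
        M.US F * ((M.l F).x j * (M.l F).y j) * M.U F := by
      intro j
      calc _ = M.US F * ((M.l F).x j * (M.U F * M.US F)) * (M.l F).y j * M.U F := by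
            noncomm_ring
        _ = _ := by rw [U_US, (M.l F).xv]; noncomm_ring
    simp only [h]
    rw [← sum_mul, ← mul_sum, (M.l F).sum, US_v, US_U]
  one := by
    have h : ∀ u, M.P' F u = (if u = M.T'.v then M.w F else 0) +
        (if u = M.T'.v then 0 else F.p (M.g u)) := by
      intro u
      rw [P']; split_ifs <;> simp
    simp only [h, sum_add_distrib]
    rw [sum_ite_eq', if_pos (mem_univ _), ← M.sum_iso (fun u => F.p (M.g u)),
      ← M.sum_p_noniso F, ← sum_add_distrib, ← F.one]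
    refine sum_congr rfl fun u _ => ?_
    by_cases hu : ∃ a, Q.s a = u
    · rw [if_pos hu, if_pos hu, add_zero]
    · rw [if_neg hu, if_neg hu, zero_add, M.gf u hu]

end Psi

/-! #### The isomorphism -/

section Iso

variable (K : Type) [Field K]

/-- `Φ` -/
noncomputable def Phi : LPA K Q →ₐ[K] LPA K Q' := (M.famPhi (fam K Q')).lift
/-- `Ψ` -/
noncomputable def Psi : LPA K Q' →ₐ[K] LPA K Q := (M.famPsi (fam K Q)).lift

lemma Phi_x (j : Fin 4) : M.Phi K ((M.l (fam K Q)).x j) =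
    (M.l' (fam K Q')).C * (M.l' (fam K Q')).x j * (M.l' (fam K Q')).CS := by
  have h : M.Phi K ((M.l (fam K Q)).x j) =
      (M.l' (fam K Q')).D (M.pos (M.T.lam j)) * (M.l' (fam K Q')).CS := lift_x _ _
  rw [h, M.pos_lam]; rfl

lemma Phi_y (j : Fin 4) : M.Phi K ((M.l (fam K Q)).y j) =
    (M.l' (fam K Q')).C * (M.l' (fam K Q')).y j * (M.l' (fam K Q')).CS := by
  have h : M.Phi K ((M.l (fam K Q)).y j) =
      (M.l' (fam K Q')).C * (M.l' (fam K Q')).S (M.pos (M.T.lam j)) := lift_y _ _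
  rw [h, M.pos_lam, mul_assoc]; rfl

lemma Phi_D (q : ℕ × Fin 4) : M.Phi K ((M.l (fam K Q)).D q) =
    (M.l' (fam K Q')).C * (M.l' (fam K Q')).D q * (M.l' (fam K Q')).CS := by
  obtain ⟨k, i⟩ := q
  induction k with
  | zero => simp only [L4.D, pow_zero, one_mul]; exact M.Phi_x K i
  | succ k ih =>
    have e1 : (M.l (fam K Q)).D (k + 1, i) = (M.l (fam K Q)).x 0 * (M.l (fam K Q)).D (k, i) := by
      simp only [L4.D]; rw [pow_succ', mul_assoc]
    have e2 : (M.l' (fam K Q')).D (k + 1, i) =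
        (M.l' (fam K Q')).x 0 * (M.l' (fam K Q')).D (k, i) := by
      simp only [L4.D]; rw [pow_succ', mul_assoc]
    rw [e1, map_mul, ih, M.Phi_x, e2]
    calc _ = (M.l' (fam K Q')).C * ((M.l' (fam K Q')).x 0 *
          ((M.l' (fam K Q')).CS * (M.l' (fam K Q')).C)) * (M.l' (fam K Q')).D (k, i) *
          (M.l' (fam K Q')).CS := by noncomm_ring
      _ = _ := by rw [(M.l' (fam K Q')).CSC, (M.l' (fam K Q')).xv]; noncomm_ring

lemma Phi_S (q : ℕ × Fin 4) : M.Phi K ((M.l (fam K Q)).S q) =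
    (M.l' (fam K Q')).C * (M.l' (fam K Q')).S q * (M.l' (fam K Q')).CS := by
  obtain ⟨k, i⟩ := q
  induction k with
  | zero => simp only [L4.S, pow_zero, mul_one]; exact M.Phi_y K i
  | succ k ih =>
    have e1 : (M.l (fam K Q)).S (k + 1, i) = (M.l (fam K Q)).S (k, i) * (M.l (fam K Q)).y 0 := by
      simp only [L4.S]; rw [pow_succ, mul_assoc]
    have e2 : (M.l' (fam K Q')).S (k + 1, i) =
        (M.l' (fam K Q')).S (k, i) * (M.l' (fam K Q')).y 0 := by
      simp only [L4.S]; rw [pow_succ, mul_assoc]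
    rw [e1, map_mul, ih, M.Phi_y, e2]
    calc _ = (M.l' (fam K Q')).C * ((M.l' (fam K Q')).S (k, i) *
          ((M.l' (fam K Q')).CS * (M.l' (fam K Q')).C)) * (M.l' (fam K Q')).y 0 *
          (M.l' (fam K Q')).CS := by noncomm_ring
      _ = _ := by rw [(M.l' (fam K Q')).CSC, (M.l' (fam K Q')).Sv]; noncomm_ring

lemma Phi_U : M.Phi K (M.U (fam K Q)) = (M.l' (fam K Q')).C := by
  rw [U, map_sum]
  have h : ∀ a, M.Phi K ((M.l (fam K Q)).D (M.pos a) * (fam K Q).y a) =
      (M.l' (fam K Q')).C * ((M.l' (fam K Q')).D (M.pos a) * (M.l' (fam K Q')).S (M.pos a)) := by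
    intro a
    have hy : M.Phi K ((fam K Q).y a) =
      (M.l' (fam K Q')).C * (M.l' (fam K Q')).S (M.pos a) := lift_y _ _
    rw [map_mul, M.Phi_D, hy]
    calc _ = (M.l' (fam K Q')).C * ((M.l' (fam K Q')).D (M.pos a) *
          ((M.l' (fam K Q')).CS * (M.l' (fam K Q')).C)) * (M.l' (fam K Q')).S (M.pos a) := by
            noncomm_ring
      _ = _ := by rw [(M.l' (fam K Q')).CSC, (M.l' (fam K Q')).Dv]; noncomm_ring
  simp only [h]
  rw [← mul_sum, M.sum_pos, (M.l' (fam K Q')).Cv]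

lemma Phi_US : M.Phi K (M.US (fam K Q)) = (M.l' (fam K Q')).CS := by
  rw [US, map_sum]
  have h : ∀ a, M.Phi K ((fam K Q).x a * (M.l (fam K Q)).S (M.pos a)) =
      ((M.l' (fam K Q')).D (M.pos a) * (M.l' (fam K Q')).S (M.pos a)) * (M.l' (fam K Q')).CS := by
    intro a
    have hx : M.Phi K ((fam K Q).x a) =
      (M.l' (fam K Q')).D (M.pos a) * (M.l' (fam K Q')).CS := lift_x _ _
    rw [map_mul, M.Phi_S, hx]
    calc _ = ((M.l' (fam K Q')).D (M.pos a) *
          ((M.l' (fam K Q')).CS * (M.l' (fam K Q')).C)) * (M.l' (fam K Q')).S (M.pos a) *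
          (M.l' (fam K Q')).CS := by noncomm_ring
      _ = _ := by rw [(M.l' (fam K Q')).CSC, (M.l' (fam K Q')).Dv]
  simp only [h]
  rw [← sum_mul, M.sum_pos, (M.l' (fam K Q')).vCS]

lemma Psi_x (j : Fin 4) : M.Psi K ((M.l' (fam K Q')).x j) =
    M.US (fam K Q) * (M.l (fam K Q)).x j * M.U (fam K Q) := by
  have h : M.Psi K ((M.l' (fam K Q')).x j) =
    M.US (fam K Q) * (M.l (fam K Q)).x (M.nu (M.T'.lam j)) * M.U (fam K Q) := lift_x _ _
  rw [h, nu_lam]

lemma Psi_y (j : Fin 4) : M.Psi K ((M.l' (fam K Q')).y j) =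
    M.US (fam K Q) * (M.l (fam K Q)).y j * M.U (fam K Q) := by
  have h : M.Psi K ((M.l' (fam K Q')).y j) =
    M.US (fam K Q) * (M.l (fam K Q)).y (M.nu (M.T'.lam j)) * M.U (fam K Q) := lift_y _ _
  rw [h, nu_lam]

lemma Psi_D (q : ℕ × Fin 4) : M.Psi K ((M.l' (fam K Q')).D q) =
    M.US (fam K Q) * (M.l (fam K Q)).D q * M.U (fam K Q) := by
  obtain ⟨k, i⟩ := q
  induction k with
  | zero => simp only [L4.D, pow_zero, one_mul]; exact M.Psi_x K i
  | succ k ih =>
    have e1 : (M.l (fam K Q)).D (k + 1, i) = (M.l (fam K Q)).x 0 * (M.l (fam K Q)).D (k, i) := by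
      simp only [L4.D]; rw [pow_succ', mul_assoc]
    have e2 : (M.l' (fam K Q')).D (k + 1, i) =
        (M.l' (fam K Q')).x 0 * (M.l' (fam K Q')).D (k, i) := by
      simp only [L4.D]; rw [pow_succ', mul_assoc]
    rw [e2, map_mul, ih, M.Psi_x, e1]
    calc _ = M.US (fam K Q) * ((M.l (fam K Q)).x 0 * (M.U (fam K Q) * M.US (fam K Q))) *
          (M.l (fam K Q)).D (k, i) * M.U (fam K Q) := by noncomm_ring
      _ = _ := by rw [U_US, (M.l (fam K Q)).xv]; noncomm_ring

lemma Psi_S (q : ℕ × Fin 4) : M.Psi K ((M.l' (fam K Q')).S q) =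
    M.US (fam K Q) * (M.l (fam K Q)).S q * M.U (fam K Q) := by
  obtain ⟨k, i⟩ := q
  induction k with
  | zero => simp only [L4.S, pow_zero, mul_one]; exact M.Psi_y K i
  | succ k ih =>
    have e1 : (M.l (fam K Q)).S (k + 1, i) = (M.l (fam K Q)).S (k, i) * (M.l (fam K Q)).y 0 := by
      simp only [L4.S]; rw [pow_succ, mul_assoc]
    have e2 : (M.l' (fam K Q')).S (k + 1, i) =
        (M.l' (fam K Q')).S (k, i) * (M.l' (fam K Q')).y 0 := by
      simp only [L4.S]; rw [pow_succ, mul_assoc]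
    rw [e2, map_mul, ih, M.Psi_y, e1]
    calc _ = M.US (fam K Q) * ((M.l (fam K Q)).S (k, i) * (M.U (fam K Q) * M.US (fam K Q))) *
          (M.l (fam K Q)).y 0 * M.U (fam K Q) := by noncomm_ring
      _ = _ := by rw [U_US, (M.l (fam K Q)).Sv]; noncomm_ring

lemma Psi_C : M.Psi K (M.l' (fam K Q')).C = M.US (fam K Q) * (M.l (fam K Q)).C * M.U (fam K Q) := by
  have h : ∀ (B : Type) [Ring B] (L : L4 B), L.C = L.D (6, 0) := by
    intro B _ L; simp only [L4.C, L4.D]; rw [pow_succ]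
  rw [h, h, Psi_D]

lemma Psi_CS : M.Psi K (M.l' (fam K Q')).CS =
    M.US (fam K Q) * (M.l (fam K Q)).CS * M.U (fam K Q) := by
  have h : ∀ (B : Type) [Ring B] (L : L4 B), L.CS = L.S (6, 0) := by
    intro B _ L; simp only [L4.CS, L4.S]; rw [pow_succ']
  rw [h, h, Psi_S]

lemma CS_U {B : Type} [Ring B] (F : Fam Q B) : (M.l F).CS * M.U F = (M.l F).v := by
  have h1 : (M.l F).CS = (M.l F).CS * ∑ i, (M.l F).D (7, i) * (M.l F).S (7, i) := by
    rw [(M.l F).sum_top, ← mul_assoc, (M.l F).CSC, (M.l F).vCS]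
  have h2 : ∀ i, (M.l F).CS * ((M.l F).D (7, i) * (M.l F).S (7, i)) * M.U F =
      (M.l F).x i * (M.l F).y i := by
    intro i
    have hS : (M.l F).S (7, i) * M.U F = (M.l F).y i := by
      rw [← M.pos_lam i]; exact M.S_U F (M.T.lam i)
    calc _ = (M.l F).CS * (M.l F).D (7, i) * ((M.l F).S (7, i) * M.U F) := by noncomm_ring
      _ = ((M.l F).CS * (M.l F).C) * (M.l F).x i * (M.l F).y i := by
          rw [hS]; simp only [L4.D, L4.C]; noncomm_ring
      _ = _ := by rw [(M.l F).CSC, (M.l F).vx]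
  rw [h1, mul_sum, sum_mul]
  simp only [h2]
  exact (M.l F).sum

lemma US_C {B : Type} [Ring B] (F : Fam Q B) : M.US F * (M.l F).C = (M.l F).v := by
  have h1 : (M.l F).C = (∑ i, (M.l F).D (7, i) * (M.l F).S (7, i)) * (M.l F).C := by
    rw [(M.l F).sum_top, mul_assoc, (M.l F).CSC, (M.l F).Cv]
  have h2 : ∀ i, M.US F * ((M.l F).D (7, i) * (M.l F).S (7, i) * (M.l F).C) =
      (M.l F).x i * (M.l F).y i := by
    intro i
    have hS : M.US F * (M.l F).D (7, i) = (M.l F).x i := by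
      rw [← M.pos_lam i]; exact M.US_D F (M.T.lam i)
    calc _ = (M.US F * (M.l F).D (7, i)) * ((M.l F).S (7, i) * (M.l F).C) := by noncomm_ring
      _ = (M.l F).x i * ((M.l F).y i * ((M.l F).CS * (M.l F).C)) := by
          rw [hS]; simp only [L4.S, L4.CS]; noncomm_ring
      _ = _ := by rw [(M.l F).CSC, (M.l F).yv]
  rw [h1, sum_mul, mul_sum]
  simp only [h2]
  exact (M.l F).sum

lemma Phi_Psi : (M.Phi K).comp (M.Psi K) = AlgHom.id K _ := by
  apply hom_ext
  · intro u
    change M.Phi K (M.Psi K ((fam K Q').p u)) = (fam K Q').p u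
    have h : M.Psi K ((fam K Q').p u) = M.P' (fam K Q) u := lift_p _ _
    rw [h, P']
    by_cases hu : u = M.T'.v
    · rw [if_pos hu, ← US_U, map_mul, Phi_US, Phi_U, (M.l' (fam K Q')).CSC, hu]; rfl
    · have h2 : M.Phi K ((fam K Q).p (M.g u)) = M.P (fam K Q') (M.g u) := lift_p _ _
      rw [if_neg hu, h2, P, if_neg (M.g_iso u hu), M.fg u hu]
  · intro a
    obtain ⟨j, rfl⟩ := M.all' a
    change M.Phi K (M.Psi K ((M.l' (fam K Q')).x j)) = (M.l' (fam K Q')).x j
    rw [Psi_x, map_mul, map_mul, Phi_US, Phi_U, Phi_x]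
    calc _ = ((M.l' (fam K Q')).CS * (M.l' (fam K Q')).C) * (M.l' (fam K Q')).x j *
          ((M.l' (fam K Q')).CS * (M.l' (fam K Q')).C) := by noncomm_ring
      _ = _ := by rw [(M.l' (fam K Q')).CSC, (M.l' (fam K Q')).vx, (M.l' (fam K Q')).xv]
  · intro a
    obtain ⟨j, rfl⟩ := M.all' a
    change M.Phi K (M.Psi K ((M.l' (fam K Q')).y j)) = (M.l' (fam K Q')).y j
    rw [Psi_y, map_mul, map_mul, Phi_US, Phi_U, Phi_y]
    calc _ = ((M.l' (fam K Q')).CS * (M.l' (fam K Q')).C) * (M.l' (fam K Q')).y j *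
          ((M.l' (fam K Q')).CS * (M.l' (fam K Q')).C) := by noncomm_ring
      _ = _ := by rw [(M.l' (fam K Q')).CSC, (M.l' (fam K Q')).vy, (M.l' (fam K Q')).yv]

lemma Psi_Phi : (M.Psi K).comp (M.Phi K) = AlgHom.id K _ := by
  apply hom_ext
  · intro u
    change M.Psi K (M.Phi K ((fam K Q).p u)) = (fam K Q).p u
    have h : M.Phi K ((fam K Q).p u) = M.P (fam K Q') u := lift_p _ _
    rw [h, P]
    by_cases hu : ∃ a, Q.s a = u
    · rw [if_pos hu, A, map_sum, (fam K Q).ck2 u hu]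
      refine sum_congr rfl fun a _ => ?_
      rw [map_mul, Psi_D, Psi_S]
      calc _ = (M.US (fam K Q) * (M.l (fam K Q)).D (M.pos a)) *
            (M.U (fam K Q) * M.US (fam K Q)) * ((M.l (fam K Q)).S (M.pos a) * M.U (fam K Q)) := by
              noncomm_ring
        _ = _ := by rw [US_D, S_U, U_US, x_v]
    · have h2 : M.Psi K ((fam K Q').p (M.f u)) = M.P' (fam K Q) (M.f u) := lift_p _ _
      rw [if_neg hu, h2, P', if_neg (M.f_ne u hu), M.gf u hu]
  · intro a
    change M.Psi K (M.Phi K ((fam K Q).x a)) = (fam K Q).x a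
    have h : M.Phi K ((fam K Q).x a) =
      (M.l' (fam K Q')).D (M.pos a) * (M.l' (fam K Q')).CS := lift_x _ _
    rw [h, map_mul, Psi_D, Psi_CS]
    calc _ = (M.US (fam K Q) * (M.l (fam K Q)).D (M.pos a)) *
          (M.U (fam K Q) * M.US (fam K Q)) * ((M.l (fam K Q)).CS * M.U (fam K Q)) := by
            noncomm_ring
      _ = _ := by rw [US_D, CS_U, U_US, x_v, x_v]
  · intro a
    change M.Psi K (M.Phi K ((fam K Q).y a)) = (fam K Q).y a
    have h : M.Phi K ((fam K Q).y a) =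
      (M.l' (fam K Q')).C * (M.l' (fam K Q')).S (M.pos a) := lift_y _ _
    rw [h, map_mul, Psi_C, Psi_S]
    calc _ = (M.US (fam K Q) * (M.l (fam K Q)).C) *
          (M.U (fam K Q) * M.US (fam K Q)) * ((M.l (fam K Q)).S (M.pos a) * M.U (fam K Q)) := by
            noncomm_ring
      _ = _ := by rw [US_C, S_U, U_US, (M.l (fam K Q)).vv, v_y]

/-- The isomorphism. -/
noncomputable def iso : LPA K Q ≃ₐ[K] LPA K Q' :=
  AlgEquiv.ofAlgHom (M.Phi K) (M.Psi K) (M.Phi_Psi K) (M.Psi_Phi K)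

end Iso

end Match


/-! ### The two quivers -/

/-- Four isolated vertices `0,1,2,3`; two loops at `4`; one arrow from each of `5,6,7` to `4`. -/
abbrev Q₁ : Quiv where
  V := Fin 8
  E := Fin 5
  s := ![4, 4, 5, 6, 7]
  r := fun _ => 4

/-- Six isolated vertices `0,…,5`; two loops at `6`. -/
abbrev Q₂ : Quiv where
  V := Fin 7
  E := Fin 2
  s := fun _ => 6
  r := fun _ => 6

/-- position in the comb -/
def pos (e : Fin 5 × Fin 5) : ℕ × Fin 4 :=
  if e.1.val ≤ 1 ∧ e.2.val ≤ 1 then (7, Fin.ofNat 4 (2 * e.1.val + e.2.val))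
  else
    let t := if 2 ≤ e.1.val then (e.1.val - 2) * 5 + e.2.val else 15 + e.1.val * 3 + (e.2.val - 2)
    (t / 3, Fin.ofNat 4 (t % 3 + 1))

/-- matching of isolated vertices -/
def fiso (u : Fin 8 × Fin 8) : Fin 7 × Fin 7 :=
  let t := if u.1.val < 4 then 8 * u.1.val + u.2.val else 32 + (u.1.val - 4) * 4 + u.2.val
  (Fin.ofNat 7 (t / 7), Fin.ofNat 7 (t % 7))

/-- matching of isolated vertices -/
def giso (u : Fin 7 × Fin 7) : Fin 8 × Fin 8 :=
  let t := 7 * u.1.val + u.2.val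
  if t < 32 then (Fin.ofNat 8 (t / 8), Fin.ofNat 8 (t % 8))
  else (Fin.ofNat 8 (4 + (t - 32) / 4), Fin.ofNat 8 ((t - 32) % 4))

/-- The matching for the Kronecker squares. -/
def theMatch : Match Q₁.kron Q₂.kron where
  T :=
    { v := ((4 : Fin 8), (4 : Fin 8))
      hr := fun _ => rfl
      lam := ![((0 : Fin 5), (0 : Fin 5)), ((0 : Fin 5), (1 : Fin 5)), ((1 : Fin 5), (0 : Fin 5)),
        ((1 : Fin 5), (1 : Fin 5))]
      lam_inj := by
        change Function.Injective (![((0 : Fin 5), (0 : Fin 5)), ((0 : Fin 5), (1 : Fin 5)),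
          ((1 : Fin 5), (0 : Fin 5)), ((1 : Fin 5), (1 : Fin 5))] : Fin 4 → Fin 5 × Fin 5)
        decide
      lam_s := by
        intro j; fin_cases j <;> rfl
      lam_all := by
        change ∀ a : Fin 5 × Fin 5, ((![4, 4, 5, 6, 7] : Fin 5 → Fin 8) a.1,
          (![4, 4, 5, 6, 7] : Fin 5 → Fin 8) a.2) = ((4 : Fin 8), (4 : Fin 8)) →
          ∃ j, (![((0 : Fin 5), (0 : Fin 5)), ((0 : Fin 5), (1 : Fin 5)),
          ((1 : Fin 5), (0 : Fin 5)), ((1 : Fin 5), (1 : Fin 5))] : Fin 4 → Fin 5 × Fin 5) j = a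
        decide }
  T' :=
    { v := ((6 : Fin 7), (6 : Fin 7))
      hr := fun _ => rfl
      lam := ![((0 : Fin 2), (0 : Fin 2)), ((0 : Fin 2), (1 : Fin 2)), ((1 : Fin 2), (0 : Fin 2)),
        ((1 : Fin 2), (1 : Fin 2))]
      lam_inj := by
        change Function.Injective (![((0 : Fin 2), (0 : Fin 2)), ((0 : Fin 2), (1 : Fin 2)),
          ((1 : Fin 2), (0 : Fin 2)), ((1 : Fin 2), (1 : Fin 2))] : Fin 4 → Fin 2 × Fin 2)
        decide
      lam_s := fun _ => rfl
      lam_all := by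
        intro a _
        have h : ∀ a : Fin 2 × Fin 2, ∃ j, (![((0 : Fin 2), (0 : Fin 2)), ((0 : Fin 2), (1 : Fin 2)),
          ((1 : Fin 2), (0 : Fin 2)), ((1 : Fin 2), (1 : Fin 2))] : Fin 4 → Fin 2 × Fin 2) j = a := by
          decide
        exact h a }
  all' := by
    change ∀ a : Fin 2 × Fin 2, ∃ j, (![((0 : Fin 2), (0 : Fin 2)), ((0 : Fin 2), (1 : Fin 2)),
          ((1 : Fin 2), (0 : Fin 2)), ((1 : Fin 2), (1 : Fin 2))] : Fin 4 → Fin 2 × Fin 2) j = a
    decide
  pos := pos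
  pos_inj := by
    have h : ∀ a b : Fin 5 × Fin 5, pos a = pos b → a = b := by decide +kernel
    exact h
  pos_image := by
    change (univ : Finset (Fin 5 × Fin 5)).image pos = L4.leaves
    decide +kernel
  pos_lam := by
    intro j; fin_cases j <;> rfl
  f := fiso
  g := giso
  f_ne := by
    have h : ∀ u : Fin 8 × Fin 8, (¬ ∃ a : Fin 5 × Fin 5, ((![4, 4, 5, 6, 7] : Fin 5 → Fin 8) a.1,
      (![4, 4, 5, 6, 7] : Fin 5 → Fin 8) a.2) = u) → fiso u ≠ ((6 : Fin 7), (6 : Fin 7)) := by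
      decide +kernel
    exact h
  gf := by
    have h : ∀ u : Fin 8 × Fin 8, (¬ ∃ a : Fin 5 × Fin 5, ((![4, 4, 5, 6, 7] : Fin 5 → Fin 8) a.1,
      (![4, 4, 5, 6, 7] : Fin 5 → Fin 8) a.2) = u) → giso (fiso u) = u := by
      decide +kernel
    exact h
  g_iso := by
    have h : ∀ u : Fin 7 × Fin 7, u ≠ ((6 : Fin 7), (6 : Fin 7)) →
      ¬ ∃ a : Fin 5 × Fin 5, ((![4, 4, 5, 6, 7] : Fin 5 → Fin 8) a.1,
      (![4, 4, 5, 6, 7] : Fin 5 → Fin 8) a.2) = giso u := by
      decide +kernel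
    exact h
  fg := by
    have h : ∀ u : Fin 7 × Fin 7, u ≠ ((6 : Fin 7), (6 : Fin 7)) → fiso (giso u) = u := by
      decide +kernel
    exact h

/-! ### Characters -/

section Characters

variable (K : Type) [Field K]

lemma chi_four (χ : LPA K Q₁ →ₐ[K] K) : χ ((fam K Q₁).p (4 : Fin 8)) = 0 := by
  have h := (fam K Q₁).ck2 (4 : Fin 8) ⟨(0 : Fin 5), rfl⟩
  have hf : univ.filter (fun a : Fin 5 => (![4, 4, 5, 6, 7] : Fin 5 → Fin 8) a = 4) = {0, 1} := by
    decide
  have h' : (fam K Q₁).p (4 : Fin 8) = ∑ a ∈ ({0, 1} : Finset (Fin 5)),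
      (fam K Q₁).x a * (fam K Q₁).y a := by
    rw [h]; exact congrArg (fun s => ∑ a ∈ s, (fam K Q₁).x a * (fam K Q₁).y a) hf
  have hx : ∀ a : Fin 5, χ ((fam K Q₁).x a * (fam K Q₁).y a) = χ ((fam K Q₁).p (4 : Fin 8)) := by
    intro a
    rw [map_mul, mul_comm, ← map_mul, (fam K Q₁).yx, if_pos rfl]
  have h2 := congrArg χ h'
  rw [sum_insert (by decide), sum_singleton, map_add, hx, hx] at h2
  linear_combination -h2

lemma chi_noniso (χ : LPA K Q₁ →ₐ[K] K) (u : Fin 8)
    (hu : ∃ a : Fin 5, (![4, 4, 5, 6, 7] : Fin 5 → Fin 8) a = u) :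
    χ ((fam K Q₁).p u) = 0 := by
  rw [(fam K Q₁).ck2 u hu, map_sum, sum_eq_zero]
  intro a _
  rw [map_mul, mul_comm, ← map_mul, (fam K Q₁).yx, if_pos rfl]
  exact chi_four K χ

lemma chi_x (χ : LPA K Q₁ →ₐ[K] K) (a : Fin 5) : χ ((fam K Q₁).x a) = 0 := by
  have h : (fam K Q₁).x a * (fam K Q₁).p (4 : Fin 8) = (fam K Q₁).x a := (fam K Q₁).xp a
  rw [← h, map_mul, chi_four, mul_zero]

lemma chi_y (χ : LPA K Q₁ →ₐ[K] K) (a : Fin 5) : χ ((fam K Q₁).y a) = 0 := by
  have h : (fam K Q₁).p (4 : Fin 8) * (fam K Q₁).y a = (fam K Q₁).y a := (fam K Q₁).py a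
  rw [← h, map_mul, chi_four, zero_mul]

lemma chi_exists (χ : LPA K Q₁ →ₐ[K] K) : ∃ i : Fin 4,
    χ ((fam K Q₁).p (Fin.castLE (by norm_num) i : Fin 8)) = 1 := by
  by_contra hcon
  push Not at hcon
  have hz : ∀ u : Fin 8, χ ((fam K Q₁).p u) = 0 := by
    intro u
    by_cases hu : ∃ a : Fin 5, (![4, 4, 5, 6, 7] : Fin 5 → Fin 8) a = u
    · exact chi_noniso K χ u hu
    · have hlt : u.val < 4 := by
        revert hu; revert u; decide
      have h1 := hcon ⟨u.val, hlt⟩
      have hu' : (Fin.castLE (by norm_num) (⟨u.val, hlt⟩ : Fin 4) : Fin 8) = u := rfl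
      rw [hu'] at h1
      have h2 : χ ((fam K Q₁).p u) * χ ((fam K Q₁).p u) = χ ((fam K Q₁).p u) := by
        rw [← map_mul, (fam K Q₁).pp, if_pos rfl]
      have h3 : χ ((fam K Q₁).p u) * (χ ((fam K Q₁).p u) - 1) = 0 := by
        linear_combination h2
      rcases mul_eq_zero.1 h3 with h4 | h4
      · exact h4
      · exact absurd (by linear_combination h4) h1
  have h1 := congrArg χ (fam K Q₁).one
  rw [map_sum, map_one, sum_eq_zero (fun u _ => hz u)] at h1
  exact zero_ne_one h1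

lemma chi_unique (χ χ' : LPA K Q₁ →ₐ[K] K) (u : Fin 8) (h : χ ((fam K Q₁).p u) = 1)
    (h' : χ' ((fam K Q₁).p u) = 1) : χ = χ' := by
  have key : ∀ (ψ : LPA K Q₁ →ₐ[K] K), ψ ((fam K Q₁).p u) = 1 → ∀ w : Fin 8, w ≠ u →
      ψ ((fam K Q₁).p w) = 0 := by
    intro ψ hψ w hw
    have h1 : ψ ((fam K Q₁).p w) * ψ ((fam K Q₁).p u) = 0 := by
      rw [← map_mul, (fam K Q₁).pp, if_neg hw, map_zero]
    rwa [hψ, mul_one] at h1
  apply hom_ext
  · intro w
    by_cases hw : w = u
    · subst hw; rw [h, h']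
    · rw [key χ h w hw, key χ' h' w hw]
  · intro a; rw [chi_x, chi_x]
  · intro a; rw [chi_y, chi_y]

/-- the characters of `L_K(Q₂)` at the isolated vertices -/
def charFam (i : Fin 6) : Fam Q₂ K where
  p u := if u = (Fin.castSucc i : Fin 7) then 1 else 0
  x _ := 0
  y _ := 0
  pp u w := by
    by_cases h1 : u = (Fin.castSucc i : Fin 7)
    · by_cases h2 : w = (Fin.castSucc i : Fin 7)
      · have h3 : u = w := h1.trans h2.symm
        simp [h2, h3]
      · have h3 : ¬ u = w := fun h => h2 (h ▸ h1)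
        simp [h2, h3]
    · simp [h1]
  px _ := by simp
  xp _ := by simp
  py _ := by simp
  yp _ := by simp
  yx a b := by
    have : (6 : Fin 7) ≠ Fin.castSucc i := by
      intro h
      have := congrArg Fin.val h
      simp at this
      omega
    have h6 : Q₂.r a = (6 : Fin 7) := rfl
    rw [h6, if_neg this]; simp
  ck2 u hu := by
    obtain ⟨a, rfl⟩ := hu
    have : (6 : Fin 7) ≠ Fin.castSucc i := by
      intro h
      have := congrArg Fin.val h
      simp at this
      omega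
    have h6 : Q₂.s a = (6 : Fin 7) := rfl
    rw [h6, if_neg this]; simp
  one := by
    rw [sum_ite_eq', if_pos (mem_univ _)]

lemma not_iso : ¬ Nonempty (LPA K Q₁ ≃ₐ[K] LPA K Q₂) := by
  rintro ⟨Θ⟩
  let ψ : Fin 6 → (LPA K Q₁ →ₐ[K] K) := fun i => ((charFam K i).lift).comp (Θ : LPA K Q₁ →ₐ[K] LPA K Q₂)
  choose c hc using fun i => chi_exists K (ψ i)
  have hinj : Function.Injective c := by
    intro i j hij
    have h1 : ψ i = ψ j := chi_unique K _ _ _ (hc i) (by rw [hij]; exact hc j)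
    have h2 : (charFam K i).lift (K := K) ((fam K Q₂).p (Fin.castSucc i : Fin 7)) =
        (charFam K j).lift (K := K) ((fam K Q₂).p (Fin.castSucc i : Fin 7)) := by
      have h3 := AlgHom.congr_fun h1 (Θ.symm ((fam K Q₂).p (Fin.castSucc i : Fin 7)))
      simpa [ψ] using h3
    rw [lift_p, lift_p] at h2
    simp only [charFam, if_true] at h2
    by_contra hne
    rw [if_neg] at h2
    · exact one_ne_zero h2
    · intro h; exact hne (Fin.castSucc_injective _ h)
  have := Fintype.card_le_of_injective c hinj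
  simp at this

end Characters

/-- **Negative answer to Q1 of MP_40e4cd_al**, over every field `K`: there are finite quivers
`Q`, `Q'` with `L_K(Q ⊗ Q) ≅ L_K(Q' ⊗ Q')` but `L_K(Q) ≇ L_K(Q')`. -/
theorem result : ∃ Q Q' : Quiv, ∀ (K : Type) [Field K],
    Nonempty (LPA K Q.kron ≃ₐ[K] LPA K Q'.kron) ∧ ¬ Nonempty (LPA K Q ≃ₐ[K] LPA K Q') :=
  ⟨Q₁, Q₂, fun K _ => ⟨⟨theMatch.iso K⟩, not_iso K⟩⟩

end Pool.Agent.Results.MP_40e4cd_al.KroneckerSquares
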